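import Pool.Agent.U365.MOD.T
import Pool.Agent.U365.AQG.B

/-!
# The Brun-Titchmarsh inequality with the constant `1` in almost all classes, for all the multiples of aliquot sums, cototients
and similar moduli

Let `s(m) = σ(m) - m` be the sum of the proper divisors of `m`. For almost all even integers `m` with a prime factor larger
than `m^(1/3 + ρ)`, hence for at least two thirds of all even `m`, the moduli `n = s(m)` and `n = m - φ(m)` and ALL their
multiples `q = t n`, `t ≤ (log n)^K`, have the property `Holds`: for all reduced classes `l` modulo `q`, with at most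
`φ(q) / (log q)^T` exceptions, `N(x, y; q, l) ≤ (1 + ε) y / (φ(q) log q)` for ALL real `x`, `y` with
`q (log q)^C ≤ y ≤ x ≤ q (log q)^(C + D)`; and this for all `C`, `D`, `T` with `2 D + T + 2 ≤ C` and `C + D < K` at the same
time. The same is true for the moduli `n = α m + β f(m)`, where `f` is any positive multiplicative function of moderate growth
with `f(p) = p + c`, `c ≠ 0`, for all large primes `p`, as long as `n` is positive and not very small. These functions are not
multiplicative, nothing is known on the distribution of their values in the residue classes to large moduli, and their values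
are taken with large multiplicities.

Proof. Write `m = k p` with the large prime factor `p`. Then `n = A p + B` with `A = α k + β f(k)` and `B = β c f(k)`, and
`A` is at most `x^(2/3 - ρ)`, up to a power of the logarithm. So `t n` runs through the class of `t B` modulo `t A`, and
Hooley's asymptotic formula for the variance for almost all moduli in a class (`MP_5d318d_nt.ModuliInClasses`, starting file)
is applied for every `k` and every `t`; the passage from the variance to the inequality is `TH872/GQ/BT` (starting files).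
-/

set_option autoImplicit false

namespace Pool.Agent.Results.MP_26a8c3_nt.AliquotModuli

open Finset Filter Topology
open Pool.Agent.U365.AQG (Moderate LargePrime AlmostAll aliquot)

/-- `N(x, y; q, l)` for `0 ≤ y ≤ x` and `0 ≤ l < q`: the number of the primes `p` with `x - y < p ≤ x` and
`p ≡ l (mod q)` -/
noncomputable def cnt (x y : ℝ) (q l : ℕ) : ℕ :=
  ((Ioc ⌊x - y⌋₊ ⌊x⌋₊).filter (fun p => p.Prime ∧ p % q = l)).card

open Classical in
/-- For all `l` with `0 ≤ l < q` and `gcd(l, q) = 1`, except for at most `φ(q) / (log q) ^ T` of them: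
`N(x, y; q, l) ≤ (1 + ε) y / (φ(q) log q)` for ALL real `x`, `y` with `q (log q) ^ C ≤ y ≤ x ≤ q (log q) ^ (C + D)`. -/
def Holds (ε : ℝ) (T C D q : ℕ) : Prop :=
  (((range q).filter (fun l => Nat.Coprime l q ∧ ∃ x y : ℝ, q * Real.log q ^ C ≤ y ∧ y ≤ x ∧
    x ≤ q * Real.log q ^ (C + D) ∧ (1 + ε) * (y / (Nat.totient q * Real.log q)) < cnt x y q l)).card : ℝ) ≤
    Nat.totient q / Real.log q ^ T

/-- The modulus `n` is at least `3`, and ALL its multiples `q = t n`, `1 ≤ t ≤ (log n)^K`, satisfy `Holds ε T C D q` for ALL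
`C`, `D`, `T` with `2 D + T + 2 ≤ C` and `C + D + 1 ≤ K`. -/
def Multiples (ε : ℝ) (K n : ℕ) : Prop :=
  3 ≤ n ∧ ∀ t : ℕ, 1 ≤ t → (t : ℝ) ≤ Real.log n ^ K → ∀ C D T : ℕ, 2 * D + T + 2 ≤ C → C + D + 1 ≤ K →
    Holds ε T C D (t * n)

theorem both (ε : ℝ) (hε : 0 < ε) (hε1 : ε ≤ 1) (K : ℕ) (ρ : ℝ) (hρ : 0 < ρ) :
    AlmostAll (fun m => Even m → LargePrime (1 / 3 + ρ) m →
      Multiples ε K (aliquot m) ∧ Multiples ε K (m - Nat.totient m)) := by
  have h := Pool.Agent.U365.AQG.both' (2 / 3) (by norm_num) (by norm_num) _ (Pool.Agent.U365.MOD.ebt_BT ε hε hε1 K) 3 ρ hρ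
  rw [show (1 - 2 / 3 : ℝ) = 1 / 3 by norm_num] at h
  exact h

open Classical in
/-- **The Brun-Titchmarsh inequality with the constant `1` in almost all classes, for aliquot sums, cototients and similar
moduli.** Let `f` be a positive multiplicative function of moderate growth with `f p = p + c`, `c ≠ 0`, for all large primes
`p`, let `α`, `β` be nonzero integers, `ρ > 0` and `0 < ε ≤ 1`. For almost all `m` with a prime factor `≥ m^(1/3 + ρ)` and
`n = α m + β f(m) ≥ m / (log m)^C₀` ALL the multiples `q = t n`, `1 ≤ t ≤ (log n)^K`, satisfy `Holds ε T C D q` for ALL `C`,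
`D`, `T` with `2 D + T + 2 ≤ C` and `C + D + 1 ≤ K`. Euler's function and the sum of the divisors are examples. For almost
all even `m` with a prime factor `≥ m^(1/3 + ρ)` this holds for the sum `s(m)` of the proper divisors and for the cototient
`m - φ(m)`; this is so for a proportion of at least `2/3` of the even integers `m`. -/
theorem result :
    (∀ (f : ℕ → ℕ) (c α β : ℤ) (C₀ K : ℕ) (ρ ε : ℝ), Moderate f c → c ≠ 0 → α ≠ 0 → β ≠ 0 → 0 < ρ → 0 < ε → ε ≤ 1 →
      AlmostAll (fun m => LargePrime (1 / 3 + ρ) m → (m : ℝ) / Real.log m ^ C₀ ≤ ((α * m + β * f m : ℤ) : ℝ) →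
        ∀ n : ℕ, (n : ℤ) = α * m + β * f m → ∀ t : ℕ, 1 ≤ t → (t : ℝ) ≤ Real.log n ^ K →
          ∀ C D T : ℕ, 2 * D + T + 2 ≤ C → C + D + 1 ≤ K → Holds ε T C D (t * n))) ∧
    (Moderate Nat.totient (-1) ∧ Moderate (fun m => ∑ d ∈ m.divisors, d) 1) ∧
    (∀ (K : ℕ) (ρ ε : ℝ), 0 < ρ → 0 < ε → ε ≤ 1 → AlmostAll (fun m => Even m → LargePrime (1 / 3 + ρ) m →
      Multiples ε K (aliquot m) ∧ Multiples ε K (m - Nat.totient m))) ∧
    ∀ (K : ℕ) (ε δ : ℝ), 0 < ε → ε ≤ 1 → δ < 2 / 3 → ∃ N₀ : ℕ, ∀ N : ℕ, N₀ ≤ N → δ * (N / 2) ≤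
      (((Icc 1 N).filter (fun m => Even m ∧ Multiples ε K (aliquot m) ∧ Multiples ε K (m - Nat.totient m))).card : ℝ) := by
  refine ⟨fun f c α β C₀ K ρ ε hf hc hα hβ hρ hε hε1 => ?_,
    ⟨Pool.Agent.U365.AQG.moderate_totient, Pool.Agent.U365.AQG.moderate_sigma⟩,
    fun K ρ ε hρ hε hε1 => both ε hε hε1 K ρ hρ, fun K ε δ hε hε1 hδ => ?_⟩
  · have h := Pool.Agent.U365.AQG.general' (2 / 3) (by norm_num) (by norm_num) _
      (Pool.Agent.U365.MOD.ebt_BT ε hε hε1 K) f c α β C₀ ρ hf hc hα hβ hρ
    rw [show (1 - 2 / 3 : ℝ) = 1 / 3 by norm_num] at h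
    refine Pool.Agent.U365.AQG.almostAll_and h h 0 (fun m _ h1 _ hl hg n hn => ?_)
    have h2 := h1 hl hg
    rw [← hn, Int.toNat_natCast] at h2
    exact h2
  · obtain ⟨N₀, h⟩ := Pool.Agent.U365.AQG.density (2 / 3) (by norm_num)
      (fun m => Multiples ε K (aliquot m) ∧ Multiples ε K (m - Nat.totient m)) (fun η hη => by
        rw [show (1 - 2 / 3 : ℝ) = 1 / 3 by norm_num]
        exact both ε hε hε1 K η hη) δ hδ
    exact ⟨N₀, fun N hN => (h N hN).trans (Nat.cast_le.2 (Pool.Agent.U365.AQG.card_mono' (fun m hm => hm)))⟩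

end Pool.Agent.Results.MP_26a8c3_nt.AliquotModuli
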