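import Pool.Agent.U160.FD.DigitsOf
import Pool.Agent.Results.MP_26a8c3_nt.SparseModuli

/-!
# The Brun–Titchmarsh inequality with the constant `1` for almost all classes to ALL moduli near the blocks of digits of
# almost every point of a measure with Fourier decay

Definitions used, in `Pool.Agent.U160.FD`:
* `FourierDecay μ`: the Fourier transform `μ^(t) = ∫ exp(i t x) dμ(x)` of `μ` is `O(t ^ (-β))` for some `β > 0`;
* `block b x i j`: the integer whose digits in base `b` are the digits of `x` at the places `i + 1, …, j` after the point,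
  that is, the residue of `⌊b ^ j x⌋` modulo `b ^ (j - i)`.

Method (`Pool.Agent.U160.FD`): for all `l ≥ 1` the signed sums of the numbers `{l x_i}` for `2 h` independent points `x_i` of
`μ` are in an interval of length `r` with probability `O(r)`, uniformly in `l` (Fejer kernel on the circle and the decay of
the Fourier transform); thus the weights `μ{x : ⌊M {l x}⌋ + s = a}` have minimal additive energy of order `h`, they are
approximated by finite families (with multiplicities), and the theorem of the starting files on moduli in families of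
nearly minimal energy (`Pool.Agent.Results.MP_26a8c3_nt.SparseModuli.families`) bounds the measure of the exceptional
points; Borel-Cantelli over polynomially many parameters for every `j`.
-/

set_option autoImplicit false

namespace Pool.Agent.Results.MP_26a8c3_nt.DigitBlocks

open MeasureTheory Filter Finset Pool.Agent.U160.FD

/-- `N(x, y; q, l)` for `0 ≤ y ≤ x` and `0 ≤ l < q`: the number of the primes `p` with `x - y < p ≤ x` and
`p ≡ l (mod q)` -/
noncomputable def cnt (x y : ℝ) (q l : ℕ) : ℕ :=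
  ((Ioc ⌊x - y⌋₊ ⌊x⌋₊).filter (fun p => p.Prime ∧ p % q = l)).card

open Classical in
/-- For all `l` with `0 ≤ l < q` and `gcd(l, q) = 1`, except for at most `φ(q) / (log q) ^ U` of them:
`N(x, y; q, l) ≤ (1 + ε) y / (φ(q) log q)` for ALL real `x`, `y` with `q (log q) ^ B ≤ y ≤ x ≤ q (log q) ^ (B + D)`. -/
def Holds (ε : ℝ) (U B D q : ℕ) : Prop :=
  (((range q).filter (fun l => Nat.Coprime l q ∧ ∃ x y : ℝ, q * Real.log q ^ B ≤ y ∧ y ≤ x ∧
    x ≤ q * Real.log q ^ (B + D) ∧ (1 + ε) * (y / (Nat.totient q * Real.log q)) < cnt x y q l)).card : ℝ) ≤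
    Nat.totient q / Real.log q ^ U

lemma holds_mono {ε ε' : ℝ} (h : ε ≤ ε') {U B D q : ℕ} (hq : 1 ≤ q) (hh : Holds ε U B D q) : Holds ε' U B D q := by
  classical
  unfold Holds at hh ⊢
  refine le_trans ?_ hh
  apply Nat.cast_le.2
  apply card_le_card
  intro l hl
  rw [mem_filter] at hl ⊢
  obtain ⟨h1, h2, x, y, h3, h4, h5, h6⟩ := hl
  refine ⟨h1, h2, x, y, h3, h4, h5, lt_of_le_of_lt ?_ h6⟩
  apply mul_le_mul_of_nonneg_right (by linarith)
  have h7 : 0 ≤ Real.log (q : ℝ) := Real.log_natCast_nonneg _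
  have h8 : 0 ≤ y := le_trans (by positivity) h3
  positivity

/-- the hypothesis of the general theorem -/
lemma fam (ε : ℝ) (hε : 0 < ε) (hε1 : ε ≤ 1) (B D U : ℕ) (hB : 2 * D + U + 2 ≤ B) :
    ∀ h B₁ C κ V : ℕ, 1 ≤ h → ∃ N₀ : ℕ, ∀ N : ℕ, N₀ ≤ N → ∀ (ι : Type) [Fintype ι] (v : ι → ℤ),
      (∀ i, |v i| ≤ B₁ * N) →
      (Pool.Agent.TH935.GF.En h v : ℝ) * N ≤ Real.log N ^ C * (Fintype.card ι : ℝ) ^ (2 * h) →
      ∀ S : Finset ι, (∀ i ∈ S, 0 < v i ∧ (N : ℝ) ≤ v i * Real.log N ^ κ ∧ ¬ Holds ε U B D (v i).toNat) →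
        (S.card : ℝ) ≤ Fintype.card ι / Real.log N ^ V := by
  classical
  intro h B₁ C κ V hh
  obtain ⟨N₀, h0⟩ := Pool.Agent.Results.MP_26a8c3_nt.SparseModuli.families ε hε hε1 B D U V hB h (C + 1) (κ + 1)
  have hlog : Tendsto (fun N : ℕ => Real.log (N:ℝ)) atTop atTop :=
    Real.tendsto_log_atTop.comp tendsto_natCast_atTop_atTop
  obtain ⟨N₁, h1⟩ := eventually_atTop.1 (hlog.eventually_ge_atTop ((B₁:ℝ) + 1))
  refine ⟨N₀ + N₁ + 3, fun N hN ι _ v hv hE S hS => ?_⟩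
  have hL := h1 N (by omega)
  have hN3 : 3 ≤ N := by omega
  have hNr : (3:ℝ) ≤ N := by exact_mod_cast hN3
  have hB0 : (0:ℝ) ≤ B₁ := Nat.cast_nonneg _
  obtain ⟨N', hN'⟩ : ∃ N' : ℕ, N' = (B₁ + 1) * N := ⟨_, rfl⟩
  have hN'r : (N':ℝ) = (B₁ + 1) * N := by rw [hN']; push_cast; ring
  have hNN' : N ≤ N' := by rw [hN']; exact Nat.le_mul_of_pos_left N (by omega)
  have hNNr : (N:ℝ) ≤ N' := by exact_mod_cast hNN'
  have hLL : Real.log N ≤ Real.log N' := Real.log_le_log (by linarith) hNNr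
  have hL0 : 0 < Real.log N := by linarith
  have hcard : (0:ℝ) ≤ (Fintype.card ι : ℝ) ^ (2 * h) := by positivity
  have key := h0 N' (by omega) ι v (fun i => by
    have h2 := hv i
    have h3 : ((B₁ * N : ℕ) : ℤ) ≤ ((N' : ℕ) : ℤ) := by
      rw [hN']
      exact_mod_cast Nat.mul_le_mul_right N (by omega : B₁ ≤ B₁ + 1)
    push_cast at h3 ⊢
    exact h2.trans h3) (by
    calc (Pool.Agent.TH935.GF.En h v : ℝ) * N' = (B₁ + 1) * ((Pool.Agent.TH935.GF.En h v : ℝ) * N) := by rw [hN'r]; ring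
      _ ≤ Real.log N * (Real.log N ^ C * (Fintype.card ι : ℝ) ^ (2 * h)) :=
          mul_le_mul hL hE (by positivity) hL0.le
      _ = Real.log N ^ (C + 1) * (Fintype.card ι : ℝ) ^ (2 * h) := by ring
      _ ≤ Real.log N' ^ (C + 1) * (Fintype.card ι : ℝ) ^ (2 * h) :=
          mul_le_mul_of_nonneg_right (pow_le_pow_left₀ hL0.le hLL _) hcard)
  have hsub : S ⊆ univ.filter (fun i => 0 < v i ∧ (N' : ℝ) ≤ v i * Real.log N' ^ (κ + 1) ∧
      ¬ Pool.Agent.Results.MP_26a8c3_nt.SparseModuli.Holds ε U B D (v i).toNat) := by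
    intro i hi
    obtain ⟨a1, a2, a3⟩ := hS i hi
    rw [mem_filter]
    refine ⟨mem_univ _, a1, ?_, a3⟩
    have a4 : (0:ℝ) < v i := by exact_mod_cast a1
    calc (N' : ℝ) = (B₁ + 1) * N := hN'r
      _ ≤ Real.log N * (v i * Real.log N ^ κ) := mul_le_mul hL a2 (by positivity) hL0.le
      _ = v i * Real.log N ^ (κ + 1) := by ring
      _ ≤ v i * Real.log N' ^ (κ + 1) := mul_le_mul_of_nonneg_left (pow_le_pow_left₀ hL0.le hLL _) a4.le
  calc (S.card : ℝ) ≤ ((univ.filter (fun i => 0 < v i ∧ (N' : ℝ) ≤ v i * Real.log N' ^ (κ + 1) ∧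
      ¬ Pool.Agent.Results.MP_26a8c3_nt.SparseModuli.Holds ε U B D (v i).toNat)).card : ℝ) := by
        exact_mod_cast card_le_card hsub
    _ ≤ Fintype.card ι / Real.log N' ^ V := key
    _ ≤ Fintype.card ι / Real.log N ^ V := by
        apply div_le_div_of_nonneg_left (Nat.cast_nonneg _) (by positivity)
        exact pow_le_pow_left₀ hL0.le hLL _

/-- Let `μ` be a probability measure on the line whose Fourier transform is `O(t ^ (-β))` for some `β > 0` (for example a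
measure on a set of arbitrarily small positive dimension).

(1) For `μ`-almost every `x`: for all bases `b ≥ 2`, all `η, ε > 0`, all `D`, `U`, `W` and `B ≥ 2 D + U + 2` and all large `j`,
ALL the blocks of at least `j ^ η` digits of `x` in base `b` which end at the place `j` after the point have the following
property: if `k` is the number of the digits and `n` is the integer with these digits, then for all moduli `q ≥ 1` with
`|q - n| ≤ k ^ W` and all reduced classes `l` modulo `q`, except for at most `φ(q) / (log q) ^ U` of them,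
`N(x, y; q, l) ≤ (1 + ε) y / (φ(q) log q)` for ALL real `x`, `y` with `q (log q) ^ B ≤ y ≤ x ≤ q (log q) ^ (B + D)`.

(2) More generally, for every `j` let `F j` be a set of at most `j ^ D₁` triples `(l, M, s)` of real numbers `l ≥ 1` and
`M ≥ exp (j ^ δ)` (with `δ > 0`) and integers `|s| ≤ B₀ M`. Then for `μ`-almost every `x` and all large `j` the same holds for
all `(l, M, s)` in `F j` and all moduli `q ≥ 1` with `|q - s - M {l x}| ≤ log ^ W M`. -/
theorem result (μ : Measure ℝ) [IsProbabilityMeasure μ] (hμ : FourierDecay μ) :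
    (∀ᵐ x ∂μ, ∀ b : ℕ, 2 ≤ b → ∀ (η ε : ℝ) (B D U W : ℕ), 0 < η → 0 < ε → 2 * D + U + 2 ≤ B →
      ∀ᶠ j : ℕ in atTop, ∀ k : ℕ, k ≤ j → (j : ℝ) ^ η ≤ k → ∀ q : ℕ, 1 ≤ q →
        |(q : ℝ) - block b x (j - k) j| ≤ (k : ℝ) ^ W → Holds ε U B D q) ∧
    (∀ (F : ℕ → Finset (ℝ × ℝ × ℤ)) (δ : ℝ) (B₀ D₁ : ℕ), 0 < δ →
      (∀ᶠ j : ℕ in atTop, ((F j).card : ℝ) ≤ (j : ℝ) ^ D₁ ∧
        ∀ p ∈ F j, 1 ≤ p.1 ∧ Real.exp ((j : ℝ) ^ δ) ≤ p.2.1 ∧ |(p.2.2 : ℝ)| ≤ B₀ * p.2.1) →
      ∀ᵐ x ∂μ, ∀ (ε : ℝ) (B D U W : ℕ), 0 < ε → 2 * D + U + 2 ≤ B → ∀ᶠ j : ℕ in atTop, ∀ p ∈ F j, ∀ q : ℕ, 1 ≤ q →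
        |(q : ℝ) - p.2.2 - p.2.1 * Int.fract (p.1 * x)| ≤ Real.log p.2.1 ^ W → Holds ε U B D q) := by
  have hε0 : ∀ n : ℕ, (0:ℝ) < 1 / ((n:ℝ) + 1) := fun n => by positivity
  have hε1 : ∀ n : ℕ, 1 / ((n:ℝ) + 1) ≤ 1 := fun n => by
    rw [div_le_one (by positivity)]
    have : (0:ℝ) ≤ n := Nat.cast_nonneg _
    linarith
  constructor
  · have h1 : ∀ᵐ x ∂μ, ∀ n B D U : ℕ, 2 * D + U + 2 ≤ B → ∀ b : ℕ, 2 ≤ b → ∀ η : ℝ, 0 < η → ∀ W : ℕ,
        ∀ᶠ j : ℕ in atTop, ∀ k : ℕ, k ≤ j → (j : ℝ) ^ η ≤ k → ∀ q : ℕ,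
          |(q:ℝ) - block b x (j - k) j| ≤ (k:ℝ) ^ W → Holds (1 / ((n:ℝ) + 1)) U B D q := by
      rw [ae_all_iff]; intro n
      rw [ae_all_iff]; intro B
      rw [ae_all_iff]; intro D
      rw [ae_all_iff]; intro U
      by_cases hB : 2 * D + U + 2 ≤ B
      · filter_upwards [digits_of μ hμ (Holds (1 / ((n:ℝ) + 1)) U B D) (fam _ (hε0 n) (hε1 n) B D U hB)] with x hx _
        exact hx
      · exact ae_of_all _ fun x h => absurd h hB
    filter_upwards [h1] with x hx b hb η ε B D U W hη hε hB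
    obtain ⟨n, hn⟩ := exists_nat_one_div_lt hε
    filter_upwards [hx n B D U hB b hb η hη W] with j hj k hk hkη q hq1 hq
    exact holds_mono hn.le hq1 (hj k hk hkη q hq)
  · intro F δ B₀ D₁ hδ hF
    have h1 : ∀ᵐ x ∂μ, ∀ n B D U W : ℕ, 2 * D + U + 2 ≤ B → ∀ᶠ j : ℕ in atTop, ∀ p ∈ F j, ∀ q : ℕ,
        |(q : ℝ) - p.2.2 - p.2.1 * Int.fract (p.1 * x)| ≤ Real.log p.2.1 ^ W → Holds (1 / ((n:ℝ) + 1)) U B D q := by
      rw [ae_all_iff]; intro n
      rw [ae_all_iff]; intro B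
      rw [ae_all_iff]; intro D
      rw [ae_all_iff]; intro U
      rw [ae_all_iff]; intro W
      by_cases hB : 2 * D + U + 2 ≤ B
      · filter_upwards [ae_block μ hμ (Holds (1 / ((n:ℝ) + 1)) U B D) (fam _ (hε0 n) (hε1 n) B D U hB) F δ hδ B₀ D₁ hF W]
          with x hx _
        exact hx
      · exact ae_of_all _ fun x h => absurd h hB
    filter_upwards [h1] with x hx ε B D U W hε hB
    obtain ⟨n, hn⟩ := exists_nat_one_div_lt hε
    filter_upwards [hx n B D U W hB] with j hj p hp q hq1 hq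
    exact holds_mono hn.le hq1 (hj p hp q hq)

end Pool.Agent.Results.MP_26a8c3_nt.DigitBlocks
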