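import Pool.Agent.TH872.GQ.BT
import Pool.Agent.Results.MP_5d318d_nt.HigherConvexModuli

/-!
# The Brun–Titchmarsh inequality with the constant `1` for almost all classes, to ALL the moduli near almost all values of an
arbitrary function of higher convexity

Fix `r ≥ 2`. Let `f` be ANY function on `{1, ..., x}`, `x ≥ N ^ (1 / r + η)`, with values in `[-N / 2, N / 2]`, whose
differences of order `r` are all at least `N / (x ^ r log ^ C N)`, or all at most the negative of this number. For all but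
`x / log ^ V N` of the `m ≤ x`, ALL the moduli `q ≥ N / log ^ κ N` at a distance of at most `log ^ C N` from `f m` have the
property: for almost all reduced classes `l` modulo `q`, `N(X, Y; q, l) ≤ (1 + ε) Y / (φ(q) log q)` for all `X`, `Y` with
`q log ^ B q ≤ Y ≤ X ≤ q log ^ (B + D) q`.

For `r = 2` these are the strictly convex (or concave) functions; for larger `r` there are only `N ^ (1 / r + η)` points, so
the moduli run through neighbourhoods of arbitrarily sparse sets (any power `N ^ θ`, `θ > 0`), and no regularity is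
assumed besides the sign and the size of the `r`-th differences. The earlier results of this
problem on thin sets of moduli treat digit sets, explicit sequences, real polynomials of a bounded degree and families of
nearly minimal additive energy.

Proof: the variance for these moduli (`Pool.Agent.Results.MP_5d318d_nt.HigherConvexModuli.result`, which rests on the energy
theorem `Pool.Agent.U828.KD.energy_r`) and the theorem `Pool.Agent.TH872.GQ.BT.det` of the starting files.
-/

set_option autoImplicit false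

namespace Pool.Agent.Results.MP_26a8c3_nt.HigherConvexModuli

open Finset

/-- `N(x, y; q, l)` for `0 ≤ y ≤ x` and `0 ≤ l < q`: the number of the primes `p` with `x - y < p ≤ x` and
`p ≡ l (mod q)` -/
noncomputable def cnt (x y : ℝ) (q l : ℕ) : ℕ :=
  ((Ioc ⌊x - y⌋₊ ⌊x⌋₊).filter (fun p => p.Prime ∧ p % q = l)).card

open Classical in
/-- For all `l` with `0 ≤ l < q` and `gcd(l, q) = 1`, except for at most `φ(q) / (log q) ^ U` of them:
`N(x, y; q, l) ≤ (1 + ε) y / (φ(q) log q)` for ALL real `x`, `y` with `q (log q) ^ B ≤ y ≤ x ≤ q (log q) ^ (B + D)`. -/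
def Holds (ε : ℝ) (U B D q : ℕ) : Prop :=
  (((range q).filter (fun l => Nat.Coprime l q ∧ ∃ x y : ℝ, q * Real.log q ^ B ≤ y ∧ y ≤ x ∧
    x ≤ q * Real.log q ^ (B + D) ∧ (1 + ε) * (y / (Nat.totient q * Real.log q)) < cnt x y q l)).card : ℝ) ≤
    Nat.totient q / Real.log q ^ U

/-- The differences of order `r` of `f` on `{1, ..., x}` are all at least `κ`, or all at most `-κ`. Here `fwdDiff 1 f m`
is the difference `f (m + 1) - f m`. -/
def Bent (r x : ℕ) (f : ℕ → ℝ) (κ : ℝ) : Prop :=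
  (∀ m, 1 ≤ m → m + r ≤ x → κ ≤ (fwdDiff 1)^[r] f m) ∨ (∀ m, 1 ≤ m → m + r ≤ x → (fwdDiff 1)^[r] f m ≤ -κ)

open Classical in
/-- Let `r ≥ 2`, `0 < ε ≤ 1`, `U`, `V`, `D`, `B ≥ 2 D + U + 2`, `C`, `κ` and `η > 0` be fixed. For all large `N`, all
`x ≥ N ^ (1 / r + η)` and ALL functions `f` with values in `[-N / 2, N / 2]` on `{1, ..., x}` whose differences of order `r`
are all at least `N / (x ^ r log ^ C N)`, or all at most the negative of this number: for all but at most `x / log ^ V N` of the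
`m ≤ x`, ALL the moduli `q ≥ N / log ^ κ N` with `|q - f m| ≤ log ^ C N` satisfy: for all reduced classes `l` modulo `q`, except
for at most `φ(q) / (log q) ^ U` of them, `N(X, Y; q, l) ≤ (1 + ε) Y / (φ(q) log q)` for ALL real `X`, `Y` with
`q (log q) ^ B ≤ Y ≤ X ≤ q (log q) ^ (B + D)`. -/
theorem result (r : ℕ) (hr : 2 ≤ r) (ε : ℝ) (hε : 0 < ε) (hε1 : ε ≤ 1) (B D U V : ℕ) (hB : 2 * D + U + 2 ≤ B) (C κ : ℕ) (η : ℝ) (hη : 0 < η) :
    ∃ N₀ : ℕ, ∀ N : ℕ, N₀ ≤ N → ∀ x : ℕ, (N : ℝ) ^ (1 / (r : ℝ) + η) ≤ x →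
    ∀ f : ℕ → ℝ, (∀ m ∈ Icc 1 x, |f m| ≤ N / 2) → Bent r x f (N / ((x : ℝ) ^ r * Real.log N ^ C)) →
    (((Icc 1 x).filter (fun m => ¬ ∀ q : ℕ, (N : ℝ) ≤ q * Real.log N ^ κ → |(q : ℝ) - f m| ≤ Real.log N ^ C →
      Holds ε U B D q)).card : ℝ) ≤ x / Real.log N ^ V := by
  obtain ⟨Q₀, hdet⟩ := Pool.Agent.TH872.GQ.BT.det ε hε hε1 B D U hB
  obtain ⟨κ', hκ'⟩ : ∃ κ', κ' = max κ (B + D + 1) := ⟨_, rfl⟩
  obtain ⟨n1, h1⟩ := Pool.Agent.Results.MP_5d318d_nt.HigherConvexModuli.result r hr C κ' V η 1 hη one_pos le_rfl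
  obtain ⟨n2, h2⟩ := Pool.Agent.H373R2.T7.ev_L' 1
  obtain ⟨n3, h3⟩ := Pool.Agent.H373R2.T7.ev_log' κ 1
  obtain ⟨n4, h4⟩ := Pool.Agent.H373R2.T7.ev_log' C 2
  refine ⟨n1 + n2 + n3 + n4 + (Q₀ + 2) ^ 2, fun N hN x hx f hf hb => ?_⟩
  have hL := h2 N (by omega)
  have hs := h3 N (by omega)
  have hs4 := h4 N (by omega)
  rw [one_mul] at hs
  have hN4 : (Q₀ + 2) ^ 2 ≤ N := by omega
  have hN0 : (0 : ℝ) < N := by
    have : 0 < N := by
      have : 0 < (Q₀ + 2) ^ 2 := by positivity
      omega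
    exact_mod_cast this
  have hN1 : (1 : ℝ) ≤ N := by exact_mod_cast hN0
  have hC2 : Real.log N ^ C ≤ N / 2 := by
    have h6 : √(N : ℝ) ≤ N := by
      rw [Real.sqrt_le_left (by positivity)]
      nlinarith
    linarith
  refine le_trans ?_ (h1 N (by omega) x hx f hf hb)
  apply Nat.cast_le.2
  apply card_le_card
  intro m hm
  rw [mem_filter] at hm ⊢
  refine ⟨hm.1, fun hall => hm.2 fun q hq1 hq2 => ?_⟩
  have hgood := hall q (hq1.trans (by
    apply mul_le_mul_of_nonneg_left _ (Nat.cast_nonneg _)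
    exact pow_le_pow_right₀ hL (by rw [hκ']; exact le_max_left _ _))) hq2
  have hqs : Real.sqrt N ≤ q := by
    have e1 : Real.sqrt N * Real.sqrt N = N := Real.mul_self_sqrt hN0.le
    have e2 : 0 < Real.sqrt N := Real.sqrt_pos.2 hN0
    have e3 : (N : ℝ) ≤ q * Real.sqrt N := hq1.trans (mul_le_mul_of_nonneg_left hs (Nat.cast_nonneg _))
    have e4 : Real.sqrt N * Real.sqrt N ≤ q * Real.sqrt N := by
      rw [e1]
      exact e3
    exact le_of_mul_le_mul_right e4 e2
  have hQ2 : Q₀ + 2 ≤ q := by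
    have e1 : ((Q₀ + 2 : ℕ) : ℝ) ≤ Real.sqrt N := by
      apply Real.le_sqrt_of_sq_le
      exact_mod_cast hN4
    exact_mod_cast e1.trans hqs
  have hqN : (q : ℝ) ≤ N := by
    have h6 := abs_le.1 (hf m hm.1)
    have h7 := abs_le.1 hq2
    linarith [h6.2, h7.2]
  have hq0 : (0 : ℝ) < q := by exact_mod_cast (by omega : 0 < q)
  have hlog : Real.log q ≤ Real.log N := Real.log_le_log hq0 hqN
  have hlog0 : 0 ≤ Real.log q := Real.log_natCast_nonneg _
  refine hdet q (by omega) fun y hy1 hy2 => ?_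
  have e1 := hgood y hy1 (hy2.trans (by
    apply mul_le_mul_of_nonneg_left _ hq0.le
    calc Real.log q ^ (B + D + 1) ≤ Real.log N ^ (B + D + 1) := pow_le_pow_left₀ hlog0 hlog _
      _ ≤ Real.log N ^ κ' := pow_le_pow_right₀ hL (by rw [hκ']; exact le_max_right _ _)))
  have e2 : Pool.Agent.Results.MP_5d318d_nt.ThinFamilyModuli.G y q - y * Real.log q ≤ 1 * (y * Real.log q) :=
    (abs_le.1 e1).2
  linarith

end Pool.Agent.Results.MP_26a8c3_nt.HigherConvexModuli
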