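import Pool.Agent.U325.PA.Mod

set_option autoImplicit false

/-!
# The constant 2 of the Brun-Titchmarsh inequality and the limit of sieve methods

The inequality of Brun and Titchmarsh is proved by the large sieve or by upper bound sieves: one finds a
function `F(n)`, a sum of weights over the divisors of `n`, with `F ≥ 0`, and `F ≥ 1` at the primes, and
computes its sum over the progression `n = l mod q`, `u < n ≤ x`. Which constant can be reached? Here `F` is
the sum over the divisors `d` of `n` of

* ARBITRARY weights `ρ(d)` up to the level `(x / Q) exp (-(log x) ^ δ)`, nearly the length of the progression;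
  they may depend on the modulus and on the class, and
* arbitrary linear combinations of given weights `σ_k(d)`, `k ≤ K`, up to the level `x exp (-(log x) ^ δ)`,
  nearly the size of the integers, which are the same for all moduli and classes (such levels are used in
  theorems of Brun-Titchmarsh type on average and in the improvements of Motohashi, Hooley, Iwaniec and
  Fouvry); the coefficients may depend on the modulus and on the class.

The theorem: for almost all moduli `q` of size `Q`, for almost all classes, the sum of `F` over the primes is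
not seen: the true sum of `F` is at least twice the number of primes, and at most `x / (Q (log x) ^ A)` if `F`
is not positive at the integers with an even number of prime factors. For almost all moduli the sum over
ALL reduced classes `l` of the bounds given by any functions `F_l` (one for each class) is at least
`2 (π(x) - π(u)) - x / (log x) ^ A`.

Idea of the proof. The sum of the squares over all classes and all moduli `q ≤ Q` of the sums of the function
of Liouville over the multiples of `d` in the class is small: pass to the cofactors, whose classes are classes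
for the modulus `q / (q, d)`, then use the large sieve for the reduced fractions with large denominators and the
theorem of Davenport for the small ones.
-/

namespace Pool.Agent.Results.MP_26a8c3_nt.LimitOfSieves

open Finset
open Pool.Agent.U325.PA (IsSieve comb prog red)
open ArithmeticFunction (cardFactors)

/-- Let `A`, `C` be natural numbers and `δ > 0`, `L = log x`. For all large `x`, all `0 ≤ u ≤ x`,
`1 ≤ Q ≤ x exp (-L ^ δ)`, `K ≤ L ^ C` and all sieve weights `σ_1, ..., σ_K` of level `x exp (-L ^ δ)`, all moduli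
`q` with `Q / 2 < q ≤ Q` but at most `Q / L ^ A` have the properties (a), (b). For sieve weights `ρ` of level
`(x / Q) exp (-L ^ δ)` and `|t_k| ≤ L ^ C` let `F(n)` be the sum over the divisors `d` of `n` of
`ρ(d) + t_1 σ_1(d) + ... + t_K σ_K(d)`.

(a) For all classes `l` modulo `q` but at most `Q / L ^ A`, for ALL `ρ` and `t`:
the sum of `(-1) ^ Ω(n) F(n)` over the `n = l mod q`, `u < n ≤ x`, is at most `x / (Q L ^ A)` in absolute value;
if `F(n) ≤ 0` for all these `n` with `Ω(n)` even, then the sum of `F(n)` is at most `x / (Q L ^ A)`;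
if `F(n) ≥ 0` for all these `n`, and `F(n) ≥ 1` for the primes among them, then the sum of `F(n)` is at least twice
the number of these primes, minus `x / (Q L ^ A)`.

(b) For all families `ρ_l`, `t_l` such that, for all reduced classes `l` modulo `q`, `F_l(n) ≥ 0` for all
`n = l mod q`, `u < n ≤ x`, and `F_l(n) ≥ 1` for the primes among them, the sum over all reduced `l` and all these
`n` of `F_l(n)` is at least `2 (π(x) - π(u)) - x / L ^ A`. -/
theorem result (A C : ℕ) (δ : ℝ) (hδ : 0 < δ) :
    ∃ x₀ : ℕ, ∀ x : ℕ, x₀ ≤ x → ∀ (K Q u : ℕ) (σ : Fin K → ℕ → ℝ),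
      (K : ℝ) ≤ Real.log x ^ C → 1 ≤ Q → (Q : ℝ) ≤ x * Real.exp (-(Real.log x) ^ δ) → u ≤ x →
      (∀ k, IsSieve C δ x x (σ k)) →
    ∃ E : Finset ℕ, (E.card : ℝ) ≤ Q / Real.log x ^ A ∧ ∀ q : ℕ, Q < 2 * q → q ≤ Q → q ∉ E →
      (∃ B : Finset ℕ, (B.card : ℝ) ≤ Q / Real.log x ^ A ∧ ∀ l : ℕ, l < q → l ∉ B →
        ∀ (ρ : ℕ → ℝ) (t : Fin K → ℝ), IsSieve C δ x ((x : ℝ) / Q) ρ → (∀ k, |t k| ≤ Real.log x ^ C) →
          |∑ n ∈ prog x u q l, (-1 : ℝ) ^ cardFactors n * comb σ ρ t n| ≤ x / (Q * Real.log x ^ A) ∧
          ((∀ n ∈ prog x u q l, Even (cardFactors n) → comb σ ρ t n ≤ 0) →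
            ∑ n ∈ prog x u q l, comb σ ρ t n ≤ x / (Q * Real.log x ^ A)) ∧
          ((∀ n ∈ prog x u q l, 0 ≤ comb σ ρ t n) → (∀ n ∈ prog x u q l, n.Prime → 1 ≤ comb σ ρ t n) →
            2 * (((prog x u q l).filter Nat.Prime).card : ℝ) - x / (Q * Real.log x ^ A) ≤
              ∑ n ∈ prog x u q l, comb σ ρ t n)) ∧
      ∀ (ρ : ℕ → ℕ → ℝ) (t : ℕ → Fin K → ℝ), (∀ l, IsSieve C δ x ((x : ℝ) / Q) (ρ l)) →
        (∀ l k, |t l k| ≤ Real.log x ^ C) →
        (∀ l ∈ red q, ∀ n ∈ prog x u q l, 0 ≤ comb σ (ρ l) (t l) n) →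
        (∀ l ∈ red q, ∀ n ∈ prog x u q l, n.Prime → 1 ≤ comb σ (ρ l) (t l) n) →
        2 * (((Ioc u x).filter Nat.Prime).card : ℝ) - x / Real.log x ^ A ≤
          ∑ l ∈ red q, ∑ n ∈ prog x u q l, comb σ (ρ l) (t l) n := by
  obtain ⟨x₀, hx₀⟩ := Pool.Agent.U325.PA.moduli A C δ hδ
  refine ⟨x₀, fun x hx K Q u σ hK hQ1 hQx hux hσ => ?_⟩
  obtain ⟨E, hE, h⟩ := hx₀ x hx K Q u σ hK hQ1 hQx hux hσ
  refine ⟨E, hE, fun q hq1 hq2 hqE => ?_⟩
  obtain ⟨⟨B, hB, h1⟩, h2⟩ := h q hq1 hq2 hqE
  refine ⟨⟨B, hB, fun l hl hlB ρ t hρ ht => ?_⟩, h2⟩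
  have h3 := h1 l hl hlB ρ t hρ ht
  exact ⟨h3, Pool.Agent.U325.PA.lower _ _ _ h3, Pool.Agent.U325.PA.twice _ _ _ h3⟩

end Pool.Agent.Results.MP_26a8c3_nt.LimitOfSieves
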